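import Pool.Agent.PFJ.Stmts

/-!
# PFB squad (MP_e54c4c_gt), row LSF: elementary facts on limits of subspaces
-/

set_option autoImplicit false

open Matrix Filter Topology

namespace Pool.Agent.PFJ.H10

open Pool.Agent.PFS

variable {n : ℕ}

theorem lims_le {L N : ℕ → Submodule ℝ (V n)} {L' N' : Submodule ℝ (V n)} (hL : LimS L L')
    (hN : LimS N N') (h : ∀ m, L m ≤ N m) : L' ≤ N' := by
  intro x hx
  obtain ⟨y, hy, ht⟩ := hL.1 x hx
  exact hN.2 id y x strictMono_id (fun m => h m (hy m)) ht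

theorem lsf : LsfStmt := by
  intro n
  refine ⟨?_, ?_, ?_, ?_, ?_⟩
  · intro L L' φ h hφ
    constructor
    · intro x hx
      obtain ⟨y, hy, ht⟩ := h.1 x hx
      exact ⟨fun m => y (φ m), fun m => hy (φ m), ht.comp hφ.tendsto_atTop⟩
    · intro ψ y x hψ hy ht
      exact h.2 (fun m => φ (ψ m)) y x (hφ.comp hψ) hy ht
  · intro L L' g h
    constructor
    · intro x hx
      obtain ⟨z, hz, rfl⟩ := mem_img.mp hx
      obtain ⟨y, hy, ht⟩ := h.1 z hz
      exact ⟨fun m => act g (y m), fun m => mem_img.mpr ⟨y m, hy m, rfl⟩,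
        ((CC.act_continuous g).tendsto z).comp ht⟩
    · intro φ y x hφ hy ht
      have h1 : act g⁻¹ x ∈ L' := by
        refine h.2 φ (fun m => act g⁻¹ (y m)) (act g⁻¹ x) hφ (fun m => ?_)
          (((CC.act_continuous g⁻¹).tendsto x).comp ht)
        obtain ⟨z, hz, hzy⟩ := mem_img.mp (hy m)
        rw [← hzy, CC.act_inv_act]
        exact hz
      exact mem_img.mpr ⟨act g⁻¹ x, h1, CC.act_act_inv g x⟩
  · intro L L' L'' h1 h2
    exact le_antisymm (lims_le h1 h2 fun m => le_rfl) (lims_le h2 h1 fun m => le_rfl)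
  · intro L
    constructor
    · intro x hx
      exact ⟨fun _ => x, fun _ => hx, tendsto_const_nhds⟩
    · intro φ y x _ hy ht
      exact L.closed_of_finiteDimensional.mem_of_tendsto ht (Eventually.of_forall hy)
  · intro L N L' N' h1 h2 h
    exact lims_le h1 h2 h

end Pool.Agent.PFJ.H10
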